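import Pool.Agent.H89.CC.Defs

/-!
# The words of minimal support of the 2-sum
-/

set_option autoImplicit false

namespace Pool.Agent.H89.CC.L.CLS

open Pool.Agent.H89.CC

variable {F A B : Type} [Field F]

lemma eq_zero_of_outside [Fintype A] {V : Submodule F (A → F)} {p : A}
    (h : ∃ u ∈ perp V, u p ≠ 0) {x : A → F} (hx : x ∈ V) (h0 : ∀ i, i ≠ p → x i = 0) : x = 0 := by
  classical
  obtain ⟨u, hu, hup⟩ := h
  have h1 : ∑ i, x i * u i = 0 := hu x hx
  have h2 : ∑ i, x i * u i = x p * u p := by
    refine Finset.sum_eq_single p (fun i _ hi => ?_) (fun hp => absurd (Finset.mem_univ p) hp)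
    rw [h0 i hi, zero_mul]
  rw [h2] at h1
  have h3 : x p = 0 := (mul_eq_zero.1 h1).resolve_right hup
  funext i
  by_cases hi : i = p
  · rw [hi]
    exact h3
  · exact h0 i hi

lemma joint_zero_left {p : A} {q : B} {x : A → F} {y : B → F} (h : joint p q x y = 0) :
    ∀ i, i ≠ p → x i = 0 := fun i hi => congrFun h (Sum.inl ⟨i, hi⟩)

lemma joint_zero_right {p : A} {q : B} {x : A → F} {y : B → F} (h : joint p q x y = 0) :
    ∀ j, j ≠ q → y j = 0 := fun j hj => congrFun h (Sum.inr ⟨j, hj⟩)

theorem main : S_CLS := by
  intro F _ A B _ _ _ _ V p W q hV hW z hz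
  obtain ⟨⟨x, hx, y, hy, hxy, rfl⟩, hz0, hmin⟩ := hz
  by_cases ha : x p = 0
  · have hb : y q = 0 := by rw [← hxy, ha]
    by_cases hx0 : x = 0
    · -- z = joint 0 y
      refine Or.inr (Or.inl ⟨y, ⟨hy, ?_, ?_⟩, hb, by rw [hx0]⟩)
      · intro hy0
        apply hz0
        rw [hx0, hy0]
        funext i
        rcases i with i | i <;> rfl
      · intro y' hy' hy'0 hs
        have hq' : y' q = 0 := hs q hb
        have hne : joint p q (0 : A → F) y' ≠ 0 := by
          intro h
          apply hy'0
          funext j
          by_cases hj : j = q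
          · rw [hj]; exact hq'
          · exact joint_zero_right h j hj
        have h1 := hmin (joint p q 0 y') ⟨0, V.zero_mem, y', hy', by simp [hq'], rfl⟩ hne (by
          intro i hi
          rcases i with i | i
          · rfl
          · exact hs i.1 hi)
        intro j hj
        by_cases hjq : j = q
        · rw [hjq]; exact hb
        · exact h1 (Sum.inr ⟨j, hjq⟩) hj
    · -- x ≠ 0
      have key : ∀ x' ∈ V, x' ≠ 0 → (∀ i, x i = 0 → x' i = 0) →
          ∀ i, joint p q x' (0 : B → F) i = 0 → joint p q x y i = 0 := by
        intro x' hx' hx'0 hs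
        have hp' : x' p = 0 := hs p ha
        have hne : joint p q x' (0 : B → F) ≠ 0 := by
          intro h
          apply hx'0
          funext i
          by_cases hi : i = p
          · rw [hi]; exact hp'
          · exact joint_zero_left h i hi
        refine hmin (joint p q x' 0) ⟨x', hx', 0, W.zero_mem, by simp [hp'], rfl⟩ hne ?_
        intro i hi
        rcases i with i | i
        · exact hs i.1 hi
        · rfl
      have hy0 : y = 0 := by
        funext j
        by_cases hj : j = q
        · rw [hj]; exact hb
        · exact key x hx hx0 (fun i hi => hi) (Sum.inr ⟨j, hj⟩) rfl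
      refine Or.inl ⟨x, ⟨hx, hx0, ?_⟩, ha, by rw [hy0]⟩
      intro x' hx' hx'0 hs i hi
      by_cases hip : i = p
      · rw [hip]; exact ha
      · exact key x' hx' hx'0 hs (Sum.inl ⟨i, hip⟩) hi
  · have hb : y q ≠ 0 := by rw [← hxy]; exact ha
    refine Or.inr (Or.inr ⟨x, y, ⟨hx, ?_, ?_⟩, ⟨hy, ?_, ?_⟩, ha, hxy, rfl⟩)
    · intro h; exact ha (by rw [h]; rfl)
    · intro x' hx' hx'0 hs
      by_cases hp' : x' p = 0
      · exfalso
        have hne : joint p q x' (0 : B → F) ≠ 0 := by
          intro h
          apply hx'0
          funext i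
          by_cases hi : i = p
          · rw [hi]; exact hp'
          · exact joint_zero_left h i hi
        have h1 := hmin (joint p q x' 0) ⟨x', hx', 0, W.zero_mem, by simp [hp'], rfl⟩ hne (by
          intro i hi
          rcases i with i | i
          · exact hs i.1 hi
          · rfl)
        have h2 : y = 0 := eq_zero_of_outside hW hy fun j hj => h1 (Sum.inr ⟨j, hj⟩) rfl
        exact hb (by rw [h2]; rfl)
      · have hmem : (x p / x' p) • x' ∈ V := V.smul_mem _ hx'
        have hval : ((x p / x' p) • x') p = y q := by
          rw [← hxy, Pi.smul_apply, smul_eq_mul, div_mul_cancel₀ _ hp']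
        have hne : joint p q ((x p / x' p) • x') y ≠ 0 := by
          intro h
          have h2 := eq_zero_of_outside hV hmem (joint_zero_left h)
          exact hb (by rw [← hval, h2]; rfl)
        have h1 := hmin (joint p q ((x p / x' p) • x') y) ⟨_, hmem, y, hy, hval, rfl⟩ hne (by
          intro i hi
          rcases i with i | i
          · show (x p / x' p) * x' i.1 = 0
            rw [hs i.1 hi, mul_zero]
          · exact hi)
        intro i hi
        by_cases hip : i = p
        · exact absurd (hip ▸ hi) hp'
        · exact h1 (Sum.inl ⟨i, hip⟩) (by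
            show (x p / x' p) * x' i = 0
            rw [hi, mul_zero])
    · intro h; exact hb (by rw [h]; rfl)
    · intro y' hy' hy'0 hs
      by_cases hq' : y' q = 0
      · exfalso
        have hne : joint p q (0 : A → F) y' ≠ 0 := by
          intro h
          apply hy'0
          funext j
          by_cases hj : j = q
          · rw [hj]; exact hq'
          · exact joint_zero_right h j hj
        have h1 := hmin (joint p q 0 y') ⟨0, V.zero_mem, y', hy', by simp [hq'], rfl⟩ hne (by
          intro i hi
          rcases i with i | i
          · rfl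
          · exact hs i.1 hi)
        have h2 : x = 0 := eq_zero_of_outside hV hx fun i hi => h1 (Sum.inl ⟨i, hi⟩) rfl
        exact ha (by rw [h2]; rfl)
      · have hmem : (y q / y' q) • y' ∈ W := W.smul_mem _ hy'
        have hval : x p = ((y q / y' q) • y') q := by
          rw [hxy, Pi.smul_apply, smul_eq_mul, div_mul_cancel₀ _ hq']
        have hne : joint p q x ((y q / y' q) • y') ≠ 0 := by
          intro h
          have h2 := eq_zero_of_outside hW hmem (joint_zero_right h)
          exact ha (by rw [hval, h2]; rfl)
        have h1 := hmin (joint p q x ((y q / y' q) • y')) ⟨x, hx, _, hmem, hval, rfl⟩ hne (by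
          intro i hi
          rcases i with i | i
          · exact hi
          · show (y q / y' q) * y' i.1 = 0
            rw [hs i.1 hi, mul_zero])
        intro j hj
        by_cases hjq : j = q
        · exact absurd (hjq ▸ hj) hq'
        · exact h1 (Sum.inr ⟨j, hjq⟩) (by
            show (y q / y' q) * y' j = 0
            rw [hj, mul_zero])

end Pool.Agent.H89.CC.L.CLS
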