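import Pool.Agent.H89.CC.Defs

/-! # CC-CNV (helper61) -/

set_option autoImplicit false

namespace Pool.Agent.H89.CC.L.CNV

theorem main : S_CNV := by
  intro F _ A B _ _ _ _ V p W q ⟨u, hu, hup⟩ x y hx hy hxp hxy
  have hyq : y q ≠ 0 := by rw [← hxy]; exact hxp
  refine ⟨⟨x, hx.1, y, hy.1, hxy, rfl⟩, ?_, ?_⟩
  · intro h0
    have h1 : ∀ i, i ≠ p → x i = 0 := fun i hi => congrFun h0 (Sum.inl ⟨i, hi⟩)
    have h2 : ∑ i, x i * u i = 0 := hu x hx.1
    rw [Finset.sum_eq_single p (fun i _ hi => by rw [h1 i hi, zero_mul])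
      (fun h => absurd (Finset.mem_univ p) h)] at h2
    exact (mul_ne_zero hxp hup) h2
  · rintro _ ⟨x', hx', y', hy', hxy', rfl⟩ hne hsupp
    have hsx : ∀ i, x i = 0 → x' i = 0 := by
      intro i hi
      have hip : i ≠ p := by rintro rfl; exact hxp hi
      exact hsupp (Sum.inl ⟨i, hip⟩) hi
    have hsy : ∀ i, y i = 0 → y' i = 0 := by
      intro i hi
      have hiq : i ≠ q := by rintro rfl; exact hyq hi
      exact hsupp (Sum.inr ⟨i, hiq⟩) hi
    have hx0 : x' ≠ 0 := by
      intro h0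
      have hy0 : y' ≠ 0 := by
        intro h0'
        apply hne
        rw [h0, h0']
        funext i
        rcases i with i | i <;> simp [joint]
      have h1 := hy.2.2 y' hy' hy0 hsy q (by rw [← hxy', h0]; rfl)
      exact hyq h1
    have hmx := hx.2.2 x' hx' hx0 hsx
    have hx'p : x' p ≠ 0 := fun h => hxp (hmx p h)
    have hy0 : y' ≠ 0 := by
      intro h0
      apply hx'p
      rw [hxy', h0]
      rfl
    have hmy := hy.2.2 y' hy' hy0 hsy
    intro i hi
    rcases i with i | i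
    · exact hmx i.1 hi
    · exact hmy i.1 hi

end Pool.Agent.H89.CC.L.CNV
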