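import Pool.Agent.H89.CC.Defs

/-!
# CC-CODE: the code `[I | B]`
-/

set_option autoImplicit false

namespace Pool.Agent.H89.CC.L.CODE

open Pool.Agent.H89.CC

theorem wt_eq {E : Type} [Fintype E] (x : E → ZMod 2) : wt x = ∑ i, (x i).val := by
  classical
  unfold wt
  rw [Set.ncard_eq_toFinset_card', Set.toFinset_ofPred, Finset.card_filter]
  refine Finset.sum_congr rfl fun i _ => ?_
  have key : ∀ a : ZMod 2, (if a ≠ 0 then 1 else 0) = a.val := by decide
  exact key (x i)

theorem wt_add {E : Type} [Fintype E] (x y : E → ZMod 2) :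
    wt (x + y) + 2 * ∑ i, (x i).val * (y i).val = wt x + wt y := by
  rw [wt_eq, wt_eq, wt_eq, Finset.mul_sum, ← Finset.sum_add_distrib, ← Finset.sum_add_distrib]
  refine Finset.sum_congr rfl fun i _ => ?_
  have key : ∀ a b : ZMod 2, (a + b).val + 2 * (a.val * b.val) = a.val + b.val := by decide
  exact key (x i) (y i)

theorem four_dvd {E : Type} [Fintype E] {x y : E → ZMod 2} (h : ∑ i, x i * y i = 0)
    (hx : 4 ∣ wt x) (hy : 4 ∣ wt y) : 4 ∣ wt (x + y) := by
  have h1 := wt_add x y
  have h2 : ((∑ i, (x i).val * (y i).val : ℕ) : ZMod 2) = 0 := by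
    push_cast
    rw [← h]
    refine Finset.sum_congr rfl fun i _ => ?_
    rw [ZMod.natCast_zmod_val, ZMod.natCast_zmod_val]
  rw [ZMod.natCast_eq_zero_iff] at h2
  omega

theorem wt_zero {E : Type} [Fintype E] : wt (0 : E → ZMod 2) = 0 := by
  rw [wt_eq]
  simp

theorem wt_sum {A B : Type} [Fintype A] [Fintype B] (x : A ⊕ B → ZMod 2) :
    wt x = wt (fun i => x (Sum.inl i)) + wt (fun i => x (Sum.inr i)) := by
  rw [wt_eq, wt_eq, wt_eq, Fintype.sum_sum_type]

variable {m : ℕ}

/-- a row of the generator matrix -/
def row (B : Matrix (Fin m) (Fin m) (ZMod 2)) (i : Fin m) : Fin m ⊕ Fin m → ZMod 2 :=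
  Sum.elim (Pi.single i 1) (B i)

theorem row_mem (B : Matrix (Fin m) (Fin m) (ZMod 2)) (i : Fin m) : row B i ∈ code B := by
  intro j
  simp only [row, Sum.elim_inr, Sum.elim_inl]
  rw [Finset.sum_eq_single i]
  · simp
  · intro k _ hk
    rw [Pi.single_eq_of_ne hk, zero_mul]
  · intro h
    exact absurd (Finset.mem_univ _) h

theorem wt_row (B : Matrix (Fin m) (Fin m) (ZMod 2)) (i : Fin m) : wt (row B i) = 1 + wt (B i) := by
  rw [wt_sum]
  congr 1
  rw [wt_eq]
  simp only [row, Sum.elim_inl]
  rw [Finset.sum_eq_single i]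
  · simp
    rfl
  · intro k _ hk
    rw [Pi.single_eq_of_ne hk, ZMod.val_zero]
  · intro h
    exact absurd (Finset.mem_univ _) h

theorem eq_sum (B : Matrix (Fin m) (Fin m) (ZMod 2)) {x : Fin m ⊕ Fin m → ZMod 2}
    (hx : x ∈ code B) : x = ∑ i, x (Sum.inl i) • row B i := by
  funext k
  rw [Finset.sum_apply]
  rcases k with k | k
  · simp only [Pi.smul_apply, smul_eq_mul, row, Sum.elim_inl]
    rw [Finset.sum_eq_single k]
    · simp
    · intro i _ hi
      rw [Pi.single_eq_of_ne hi.symm, mul_zero]
    · intro h
      exact absurd (Finset.mem_univ _) h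
  · rw [hx k]
    rfl

theorem perp_eq {B : Matrix (Fin m) (Fin m) (ZMod 2)} (h : B * B.transpose = 1) :
    perp (code B) = code B := by
  have h' : B.transpose * B = 1 := mul_eq_one_comm.1 h
  have e1 : ∀ i k, ∑ j, B i j * B k j = if i = k then 1 else 0 := by
    intro i k
    have := congrFun (congrFun h i) k
    rw [Matrix.mul_apply, Matrix.one_apply] at this
    exact this
  have e2 : ∀ i k, ∑ j, B j i * B j k = if i = k then 1 else 0 := by
    intro i k
    have := congrFun (congrFun h' i) k
    rw [Matrix.mul_apply, Matrix.one_apply] at this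
    exact this
  have hsum : ∀ x y : Fin m ⊕ Fin m → ZMod 2, x ∈ code B →
      ∑ i, x i * y i = ∑ i, x (Sum.inl i) * (y (Sum.inl i) + ∑ j, B i j * y (Sum.inr j)) := by
    intro x y hx
    rw [Fintype.sum_sum_type]
    simp only [mul_add, Finset.sum_add_distrib]
    congr 1
    have : ∀ j, x (Sum.inr j) * y (Sum.inr j) =
        ∑ i, x (Sum.inl i) * (B i j * y (Sum.inr j)) := by
      intro j
      rw [hx j, Finset.sum_mul]
      exact Finset.sum_congr rfl fun i _ => by ring
    simp only [this]
    rw [Finset.sum_comm]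
    exact Finset.sum_congr rfl fun i _ => by rw [Finset.mul_sum]
  ext y
  constructor
  · intro hy
    -- `y_l = B y_r`
    have h1 : ∀ i, y (Sum.inl i) = ∑ j, B i j * y (Sum.inr j) := by
      intro i
      have h2 := hy (row B i) (row_mem B i)
      rw [hsum _ _ (row_mem B i), Finset.sum_eq_single i] at h2
      · simp only [row, Sum.elim_inl, Pi.single_eq_same, one_mul] at h2
        exact (CharTwo.add_eq_zero).1 h2
      · intro k _ hk
        simp only [row, Sum.elim_inl]
        rw [Pi.single_eq_of_ne hk, zero_mul]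
      · intro h
        exact absurd (Finset.mem_univ _) h
    intro j
    simp only [h1, Finset.sum_mul]
    rw [Finset.sum_comm]
    have h3 : ∀ k, ∑ i, B i k * y (Sum.inr k) * B i j = (if k = j then 1 else 0) * y (Sum.inr k) := by
      intro k
      rw [← e2 k j, Finset.sum_mul]
      exact Finset.sum_congr rfl fun i _ => by ring
    simp only [h3]
    rw [Finset.sum_eq_single j]
    · simp
    · intro k _ hk
      rw [if_neg hk, zero_mul]
    · intro h
      exact absurd (Finset.mem_univ _) h
  · intro hy x hx
    rw [hsum x y hx]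
    refine Finset.sum_eq_zero fun i _ => ?_
    have h1 : ∑ j, B i j * y (Sum.inr j) = y (Sum.inl i) := by
      have h2 : ∀ j, B i j * y (Sum.inr j) = ∑ k, y (Sum.inl k) * (B i j * B k j) := by
        intro j
        rw [hy j, Finset.mul_sum]
        exact Finset.sum_congr rfl fun k _ => by ring
      simp only [h2]
      rw [Finset.sum_comm]
      simp only [← Finset.mul_sum, e1]
      rw [Finset.sum_eq_single i]
      · simp
      · intro k _ hk
        rw [if_neg (Ne.symm hk), mul_zero]
      · intro h
        exact absurd (Finset.mem_univ _) h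
    rw [h1, CharTwo.add_self_eq_zero, mul_zero]

theorem all_four {B : Matrix (Fin m) (Fin m) (ZMod 2)} (h : B * B.transpose = 1)
    (h3 : ∀ i, wt (B i) % 4 = 3) : ∀ x ∈ code B, 4 ∣ wt x := by
  classical
  intro x hx
  have key : ∀ s : Finset (Fin m), 4 ∣ wt (∑ i ∈ s, x (Sum.inl i) • row B i) := by
    intro s
    induction s using Finset.induction_on with
    | empty =>
      rw [Finset.sum_empty, wt_zero]
      exact dvd_zero 4
    | insert i s hi ih =>
      rw [Finset.sum_insert hi, add_comm]
      have hm : ∑ i ∈ s, x (Sum.inl i) • row B i ∈ code B :=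
        Submodule.sum_mem _ fun k _ => Submodule.smul_mem _ _ (row_mem B k)
      have hr : x (Sum.inl i) • row B i ∈ code B := Submodule.smul_mem _ _ (row_mem B i)
      refine four_dvd ?_ ih ?_
      · have h5 : x (Sum.inl i) • row B i ∈ perp (code B) := by
          rw [perp_eq h]
          exact hr
        exact h5 _ hm
      · have key2 : ∀ a : ZMod 2, a = 0 ∨ a = 1 := by decide
        rcases key2 (x (Sum.inl i)) with h6 | h6
        · rw [h6, zero_smul, wt_zero]
          exact dvd_zero 4
        · rw [h6, one_smul, wt_row]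
          have := h3 i
          omega
  have h7 := key Finset.univ
  rwa [← eq_sum B hx] at h7

theorem main : S_CODE := by
  classical
  intro m B h h3 hne hcol hpair
  refine ⟨perp_eq h, all_four h h3, fun x hx hw => ?_⟩
  have hz : ∀ a : ZMod 2, a ≠ 0 → a = 1 := by decide
  have e1 : ∀ i k, ∑ j, B i j * B k j = if i = k then 1 else 0 := by
    intro i k
    have := congrFun (congrFun h i) k
    rw [Matrix.mul_apply, Matrix.one_apply] at this
    exact this
  set u : Fin m → ZMod 2 := fun i => x (Sum.inl i) with hu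
  set v : Fin m → ZMod 2 := fun i => x (Sum.inr i) with hv
  rw [wt_sum] at hw
  change wt u + wt v = 4 at hw
  have hvu : ∀ j, v j = ∑ i, u i * B i j := hx
  have huv : ∀ i, u i = ∑ j, B i j * v j := by
    intro i
    have h2 : ∀ j, B i j * v j = ∑ k, u k * (B i j * B k j) := by
      intro j
      rw [hvu j, Finset.mul_sum]
      exact Finset.sum_congr rfl fun k _ => by ring
    simp only [h2]
    rw [Finset.sum_comm]
    simp only [← Finset.mul_sum, e1]
    rw [Finset.sum_eq_single i]
    · simp
    · intro k _ hk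
      rw [if_neg (Ne.symm hk), mul_zero]
    · intro h
      exact absurd (Finset.mem_univ _) h
  have hwu : wt u ≤ 4 := by omega
  have hzero : ∀ y : Fin m → ZMod 2, wt y = 0 → ∀ i, y i = 0 := by
    intro y hy i
    unfold wt at hy
    rw [Set.ncard_eq_zero] at hy
    by_contra hi
    exact (Set.eq_empty_iff_forall_notMem.1 hy i) hi
  have hnz : ∀ y : Fin m → ZMod 2, (∀ i, y i = 0) → wt y = 0 := by
    intro y hy
    have : y = 0 := funext hy
    rw [this, wt_zero]
  have hcases : wt u = 0 ∨ wt u = 1 ∨ wt u = 2 ∨ wt u = 3 ∨ wt u = 4 := by omega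
  rcases hcases with hcase | hcase | hcase | hcase | hcase
  · -- `u = 0`
    have h5 := hzero u hcase
    have h6 : wt v = 0 := hnz v fun j => by rw [hvu j]; simp [h5]
    omega
  · -- one row
    obtain ⟨a, ha⟩ := Set.ncard_eq_one.1 (show {i | u i ≠ 0}.ncard = 1 from hcase)
    have ha1 : u a = 1 := hz _ (show a ∈ {i | u i ≠ 0} by rw [ha]; exact Set.mem_singleton a)
    have h0 : ∀ i, i ≠ a → u i = 0 := by
      intro i hi
      by_contra hc
      have : i ∈ {i | u i ≠ 0} := hc
      rw [ha] at this
      exact hi this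
    have h7 : v = B a := by
      funext j
      rw [hvu j, Finset.sum_eq_single a]
      · rw [ha1, one_mul]
      · intro k _ hk
        rw [h0 k hk, zero_mul]
      · intro h
        exact absurd (Finset.mem_univ _) h
    have h8 : wt v = 3 := by omega
    rw [h7] at h8
    exact hne a h8
  · -- two rows
    obtain ⟨a, b, hab, ha⟩ := Set.ncard_eq_two.1 (show {i | u i ≠ 0}.ncard = 2 from hcase)
    have ha1 : u a = 1 := hz _ (show a ∈ {i | u i ≠ 0} by rw [ha]; exact Set.mem_insert _ _)
    have hb1 : u b = 1 := hz _ (show b ∈ {i | u i ≠ 0} by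
      rw [ha]; exact Set.mem_insert_of_mem _ (Set.mem_singleton b))
    have h0 : ∀ i, i ≠ a → i ≠ b → u i = 0 := by
      intro i hi hi'
      by_contra hc
      have : i ∈ {i | u i ≠ 0} := hc
      rw [ha] at this
      rcases this with h | h
      · exact hi h
      · exact hi' h
    have h7 : v = B a + B b := by
      funext j
      rw [hvu j, ← Finset.sum_subset (Finset.subset_univ ({a, b} : Finset (Fin m))),
        Finset.sum_pair hab, ha1, hb1, one_mul, one_mul]
      · rfl
      · intro k _ hk
        rw [Finset.mem_insert, Finset.mem_singleton, not_or] at hk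
        rw [h0 k hk.1 hk.2, zero_mul]
    have h8 : wt v = 2 := by omega
    rw [h7] at h8
    exact hpair a b hab h8
  · -- one column
    have hv1 : wt v = 1 := by omega
    obtain ⟨a, ha⟩ := Set.ncard_eq_one.1 (show {i | v i ≠ 0}.ncard = 1 from hv1)
    have ha1 : v a = 1 := hz _ (show a ∈ {i | v i ≠ 0} by rw [ha]; exact Set.mem_singleton a)
    have h0 : ∀ i, i ≠ a → v i = 0 := by
      intro i hi
      by_contra hc
      have : i ∈ {i | v i ≠ 0} := hc
      rw [ha] at this
      exact hi this
    have h7 : u = fun i => B i a := by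
      funext i
      rw [huv i, Finset.sum_eq_single a]
      · rw [ha1, mul_one]
      · intro k _ hk
        rw [h0 k hk, mul_zero]
      · intro h
        exact absurd (Finset.mem_univ _) h
    rw [h7] at hcase
    exact hcol a hcase
  · -- `v = 0`
    have hv0 : wt v = 0 := by omega
    have h5 := hzero v hv0
    have h6 : wt u = 0 := hnz u fun i => by rw [huv i]; simp [h5]
    omega

end Pool.Agent.H89.CC.L.CODE
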