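import Pool.Agent.H89.CC.Data

set_option autoImplicit false

/-! CC-D (helper51): a Boolean check of the data, its soundness (for every `s`), and the codes for
`s = 3, 4, 5`. -/

namespace Pool.Agent.H89.CC.L.DD

/-- the vector of the first `m` bits -/
def vec (m x : ℕ) : Fin m → ZMod 2 := fun j => if x.testBit j then 1 else 0

/-- the number of the bits in the first `m` positions -/
def pc : ℕ → ℕ → ℕ
  | 0, _ => 0
  | (k + 1), x => pc k x + (if x.testBit k then 1 else 0)

def row (rows : List ℕ) (i : ℕ) : ℕ := rows.getD i 0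

/-- column weights -/
def cc (rows : List ℕ) (j : ℕ) : ℕ → ℕ
  | 0 => 0
  | (k + 1) => cc rows j k + (if (row rows k).testBit j then 1 else 0)

/-- the product `u B` -/
def acc (rows : List ℕ) (u : ℕ) : ℕ → ℕ
  | 0 => 0
  | (k + 1) => if u.testBit k then acc rows u k ^^^ row rows k else acc rows u k

def fb (m u A p : ℕ) : Bool := if p < m then u.testBit p else A.testBit (p - m)

def supp (m u A : ℕ) : List ℕ := (List.range (m + m)).filter (fb m u A)

def chk1 (m : ℕ) (rows : List ℕ) : Bool :=
  (List.range m).all fun i => (List.range m).all fun j =>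
    (pc m (row rows i &&& row rows j) % 2 == if i = j then 1 else 0) &&
      (i == j || pc m (row rows i ^^^ row rows j) != 2)

def chk2 (m : ℕ) (rows : List ℕ) : Bool :=
  (List.range m).all fun i =>
    (pc m (row rows i) % 4 == 3 && pc m (row rows i) != 3) && cc rows i m != 3

def chk3 (m : ℕ) (rows cert : List ℕ) (u A : ℕ) (S : List ℕ) : Bool :=
  (pc m u + pc m A == m) && (List.range (S.length - 1)).all fun k =>
    S.getD k 0 != S.getD (k + 1) 0 && S.all fun p =>
      fb m (cert.getD k 0) (acc rows (cert.getD k 0) m) p ==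
        (p == S.getD k 0 || p == S.getD (k + 1) 0)

/-- the check of the data -/
def check (m : ℕ) (rows cert : List ℕ) (u : ℕ) : Bool :=
  chk1 m rows && chk2 m rows && chk3 m rows cert u (acc rows u m) (supp m u (acc rows u m))

/-! ### conversions -/

theorem vec_xor (m x y : ℕ) : vec m (x ^^^ y) = vec m x + vec m y := by
  funext j
  simp only [vec, Pi.add_apply, Nat.testBit_xor]
  cases x.testBit j <;> cases y.testBit j <;> decide

theorem pc_eq (m x : ℕ) : pc m x = ∑ i : Fin m, if x.testBit i then 1 else 0 := by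
  induction m with
  | zero => rfl
  | succ m ih =>
    rw [Fin.sum_univ_castSucc, pc, ih]
    rfl

theorem cc_eq (rows : List ℕ) (j m : ℕ) :
    cc rows j m = ∑ i : Fin m, if (row rows i).testBit j then 1 else 0 := by
  induction m with
  | zero => rfl
  | succ m ih =>
    rw [Fin.sum_univ_castSucc, cc, ih]
    rfl

theorem wt_ind {E : Type} [Fintype E] (b : E → Bool) :
    wt (fun i => if b i then (1 : ZMod 2) else 0) = ∑ i, if b i then 1 else 0 := by
  classical
  unfold wt
  rw [Set.ncard_eq_toFinset_card', Set.toFinset_ofPred, ← Finset.card_filter]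
  congr 1
  ext i
  simp only [Finset.mem_filter, Finset.mem_univ, true_and]
  cases b i <;> simp

theorem wt_vec (m x : ℕ) : wt (vec m x) = pc m x := by
  rw [pc_eq]
  exact wt_ind fun i : Fin m => x.testBit i

theorem dot (m x y : ℕ) : ∑ i, vec m x i * vec m y i = ((pc m (x &&& y) : ℕ) : ZMod 2) := by
  rw [pc_eq]
  push_cast
  refine Finset.sum_congr rfl fun i _ => ?_
  simp only [vec, Nat.testBit_and]
  cases x.testBit i <;> cases y.testBit i <;> simp

theorem cast_mod (a : ℕ) (h : a % 2 = 1) : ((a : ℕ) : ZMod 2) = 1 := by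
  have : ((a % 2 : ℕ) : ZMod 2) = (a : ZMod 2) := ZMod.natCast_mod a 2
  rw [← this, h]
  rfl

theorem cast_mod0 (a : ℕ) (h : a % 2 = 0) : ((a : ℕ) : ZMod 2) = 0 := by
  have : ((a % 2 : ℕ) : ZMod 2) = (a : ZMod 2) := ZMod.natCast_mod a 2
  rw [← this, h]
  rfl

/-- the matrix -/
def mat (m : ℕ) (rows : List ℕ) : Matrix (Fin m) (Fin m) (ZMod 2) :=
  fun i => vec m (row rows i)

theorem acc_vec (m : ℕ) (rows : List ℕ) (u k : ℕ) (j : Fin m) : vec m (acc rows u k) j =
    ∑ i : Fin k, (if u.testBit i then (1 : ZMod 2) else 0) * vec m (row rows i) j := by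
  induction k with
  | zero => simp [acc, vec]
  | succ k ih =>
    rw [Fin.sum_univ_castSucc, acc]
    simp only [Fin.val_castSucc, Fin.val_last]
    rw [← ih]
    by_cases h : u.testBit k = true
    · rw [if_pos h, if_pos h, one_mul, vec_xor]
      rfl
    · rw [if_neg h, if_neg h, zero_mul, add_zero]

/-- the word with first half `u` -/
def enc (m : ℕ) (rows : List ℕ) (u : ℕ) : Fin m ⊕ Fin m → ZMod 2 :=
  Sum.elim (vec m u) (vec m (acc rows u m))

theorem enc_mem (m : ℕ) (rows : List ℕ) (u : ℕ) : enc m rows u ∈ code (mat m rows) := by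
  intro j
  show vec m (acc rows u m) j = ∑ i, vec m u i * mat m rows i j
  rw [acc_vec]
  rfl

/-! ### positions -/

def idx {m : ℕ} : Fin m ⊕ Fin m → ℕ := Sum.elim (fun i => i.1) (fun j => m + j.1)

def pos (m : ℕ) (hm : 0 < m) (p : ℕ) : Fin m ⊕ Fin m :=
  if h : p < m then Sum.inl ⟨p, h⟩ else Sum.inr ⟨(p - m) % m, Nat.mod_lt _ hm⟩

theorem idx_lt {m : ℕ} (i : Fin m ⊕ Fin m) : idx i < m + m := by
  rcases i with i | i
  · have := i.2
    simp only [idx, Sum.elim_inl]
    omega
  · have := i.2
    simp only [idx, Sum.elim_inr]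
    omega

theorem pos_idx {m : ℕ} (hm : 0 < m) (i : Fin m ⊕ Fin m) : pos m hm (idx i) = i := by
  rcases i with i | i
  · simp [pos, idx]
  · have h : ¬ m + i.1 < m := by omega
    simp only [pos, idx, Sum.elim_inr, dif_neg h, Nat.add_sub_cancel_left]
    congr 1
    exact Fin.ext (Nat.mod_eq_of_lt i.2)

theorem idx_pos {m : ℕ} (hm : 0 < m) (p : ℕ) (hp : p < m + m) : idx (pos m hm p) = p := by
  unfold pos
  split_ifs with h
  · rfl
  · have h1 : (p - m) % m = p - m := Nat.mod_eq_of_lt (by omega)
    simp only [idx, Sum.elim_inr, h1]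
    omega

theorem enc_apply (m : ℕ) (rows : List ℕ) (u : ℕ) (i : Fin m ⊕ Fin m) :
    enc m rows u i = if fb m u (acc rows u m) (idx i) then 1 else 0 := by
  rcases i with i | i
  · have h : i.1 < m := i.2
    simp only [enc, idx, fb, Sum.elim_inl, if_pos h]
    rfl
  · have h : ¬ m + i.1 < m := by omega
    simp only [enc, idx, fb, Sum.elim_inr, if_neg h, Nat.add_sub_cancel_left]
    rfl

theorem enc_ne (m : ℕ) (rows : List ℕ) (u : ℕ) (i : Fin m ⊕ Fin m) :
    enc m rows u i ≠ 0 ↔ fb m u (acc rows u m) (idx i) = true := by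
  rw [enc_apply]
  cases fb m u (acc rows u m) (idx i) <;> simp

theorem wt_enc (m : ℕ) (rows : List ℕ) (u : ℕ) :
    wt (enc m rows u) = pc m u + pc m (acc rows u m) := by
  have h : enc m rows u = fun i => if (Sum.elim (fun i : Fin m => u.testBit i)
      (fun j : Fin m => (acc rows u m).testBit j) i : Bool) then (1 : ZMod 2) else 0 := by
    funext i
    rcases i with i | i <;> rfl
  rw [h, wt_ind, Fintype.sum_sum_type, pc_eq, pc_eq]
  rfl

theorem mem_supp {m u A p : ℕ} : p ∈ supp m u A ↔ p < m + m ∧ fb m u A p = true := by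
  unfold supp
  rw [List.mem_filter, List.mem_range]

/-! ### soundness -/

theorem sound (hcode : S_CODE) (hmin : S_MINW) (hsd : S_SD) (s : ℕ) (hs : 1 ≤ s)
    (rows cert : List ℕ) (u : ℕ) (h : check (4 * s) rows cert u = true) :
    Gap (ZMod 2) (4 * s) := by
  have hm : 0 < 4 * s := by omega
  obtain ⟨m, rfl⟩ : ∃ m, m = 4 * s := ⟨_, rfl⟩
  generalize hM : 4 * s = m at h hm ⊢
  unfold check at h
  rw [Bool.and_eq_true, Bool.and_eq_true] at h
  obtain ⟨⟨h1, h2⟩, h3⟩ := h
  have h1' : ∀ i < m, ∀ j < m, pc m (row rows i &&& row rows j) % 2 = (if i = j then 1 else 0) ∧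
      (i = j ∨ pc m (row rows i ^^^ row rows j) ≠ 2) := by
    intro i hi j hj
    unfold chk1 at h1
    have h4 := List.all_eq_true.1 (List.all_eq_true.1 h1 i (List.mem_range.2 hi)) j
      (List.mem_range.2 hj)
    simpa using h4
  have h2' : ∀ i < m, pc m (row rows i) % 4 = 3 ∧ pc m (row rows i) ≠ 3 ∧ cc rows i m ≠ 3 := by
    intro i hi
    unfold chk2 at h2
    have h4 := List.all_eq_true.1 h2 i (List.mem_range.2 hi)
    simpa [and_assoc] using h4
  obtain ⟨hperp, h4, hne4⟩ := hcode m (mat m rows) (by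
      ext i j
      rw [Matrix.mul_apply]
      simp only [Matrix.transpose_apply]
      show ∑ k, vec m (row rows i) k * vec m (row rows j) k = _
      rw [dot]
      have h5 := (h1' i i.2 j j.2).1
      by_cases hij : i = j
      · subst hij
        rw [if_pos rfl] at h5
        rw [cast_mod _ h5, Matrix.one_apply_eq]
      · rw [if_neg fun e => hij (Fin.ext e)] at h5
        rw [cast_mod0 _ h5, Matrix.one_apply_ne hij])
    (fun i => by
      show wt (vec m (row rows i)) % 4 = 3
      rw [wt_vec]
      exact (h2' i i.2).1)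
    (fun i => by
      show wt (vec m (row rows i)) ≠ 3
      rw [wt_vec]
      exact (h2' i i.2).2.1)
    (fun j => by
      have h5 := (h2' j j.2).2.2
      rw [cc_eq] at h5
      have h6 : (fun i => mat m rows i j) =
          fun i : Fin m => if (row rows i).testBit j then (1 : ZMod 2) else 0 := rfl
      rw [h6, wt_ind fun i : Fin m => (row rows i).testBit j]
      exact h5)
    (fun i j hij => by
      show wt (vec m (row rows i) + vec m (row rows j)) ≠ 2
      rw [← vec_xor, wt_vec]
      exact ((h1' i i.2 j j.2).2).resolve_left fun e => hij (Fin.ext e))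
  unfold chk3 at h3
  rw [Bool.and_eq_true] at h3
  obtain ⟨h5, h6⟩ := h3
  have h5' : pc m u + pc m (acc rows u m) = m := by simpa using h5
  set S := supp m u (acc rows u m) with hS
  have h6' : ∀ k < S.length - 1, S.getD k 0 ≠ S.getD (k + 1) 0 ∧ ∀ p ∈ S,
      fb m (cert.getD k 0) (acc rows (cert.getD k 0) m) p =
        (p == S.getD k 0 || p == S.getD (k + 1) 0) := by
    intro k hk
    have h7 := List.all_eq_true.1 h6 k (List.mem_range.2 hk)
    rw [Bool.and_eq_true] at h7
    refine ⟨by simpa using h7.1, fun p hp => ?_⟩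
    have h8 := List.all_eq_true.1 h7.2 p hp
    simpa using h8
  have hmemS : ∀ k < S.length, S.getD k 0 ∈ S := by
    intro k hk
    rw [List.getD_eq_getElem _ _ hk]
    exact List.getElem_mem hk
  have hltS : ∀ k < S.length, S.getD k 0 < m + m := fun k hk => (mem_supp.1 (hmemS k hk)).1
  have hw0 : wt (enc m rows u) = m := by rw [wt_enc, h5']
  have hne : enc m rows u ≠ 0 := by
    intro e
    rw [e] at hw0
    unfold wt at hw0
    simp at hw0
    omega
  have hminw : Min (code (mat m rows)) (enc m rows u) := by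
    refine hmin (Fin m ⊕ Fin m) (code (mat m rows)) (enc m rows u) (S.length - 1)
      (fun k => pos m hm (S.getD k 0)) (fun k => enc m rows (cert.getD k 0)) (enc_mem m rows u)
      hne ?_ ?_ ?_
    · intro i hi
      rw [enc_ne] at hi
      have h7 : idx i ∈ S := mem_supp.2 ⟨idx_lt i, hi⟩
      obtain ⟨k, hk, hk'⟩ := List.getElem_of_mem h7
      refine ⟨k, by omega, ?_⟩
      show i = pos m hm (S.getD k 0)
      rw [List.getD_eq_getElem _ _ hk, hk', pos_idx]
    · intro k _
      rw [hperp]
      exact enc_mem m rows _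
    · intro k hk
      obtain ⟨h7, h8⟩ := h6' k hk
      have e1 := idx_pos hm _ (hltS k (by omega))
      have e2 := idx_pos hm _ (hltS (k + 1) (by omega))
      refine ⟨fun e => h7 ?_, fun i hi => ?_⟩
      · have e' : pos m hm (S.getD k 0) = pos m hm (S.getD (k + 1) 0) := e
        rw [← e1, ← e2, e']
      · rw [enc_ne] at hi
        have h9 := h8 (idx i) (mem_supp.2 ⟨idx_lt i, hi⟩)
        show enc m rows (cert.getD k 0) i ≠ 0 ↔
          i = pos m hm (S.getD k 0) ∨ i = pos m hm (S.getD (k + 1) 0)
        rw [enc_ne, h9, Bool.or_eq_true, beq_iff_eq, beq_iff_eq]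
        constructor
        · rintro (h | h)
          · left; rw [← h, pos_idx]
          · right; rw [← h, pos_idx]
        · rintro (h | h)
          · left; rw [h, e1]
          · right; rw [h, e2]
  rw [← hM]
  refine hsd (Fin m ⊕ Fin m) s (code (mat m rows)) (enc m rows u) hs ?_ hperp h4 hne4 hminw ?_
  · simp
    omega
  · rw [hw0, hM]

theorem main : S_D := fun h1 h2 h3 =>
  ⟨sound h1 h2 h3 3 (by norm_num) rows_3 cert_3 word_3 (by decide +kernel),
    sound h1 h2 h3 4 (by norm_num) rows_4 cert_4 word_4 (by decide +kernel),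
    sound h1 h2 h3 5 (by norm_num) rows_5 cert_5 word_5 (by decide +kernel)⟩

end Pool.Agent.H89.CC.L.DD
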