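import Pool.Agent.H89.CC.L.DD

/-! CC-E: the codes of length 48 and 56 -/

set_option autoImplicit false

namespace Pool.Agent.H89.CC.L.EE

theorem main : S_E := fun h1 h2 h3 =>
  ⟨DD.sound h1 h2 h3 6 (by norm_num) rows_6 cert_6 word_6 (by decide +kernel),
    DD.sound h1 h2 h3 7 (by norm_num) rows_7 cert_7 word_7 (by decide +kernel)⟩

end Pool.Agent.H89.CC.L.EE
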