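import Pool.Agent.H89.CC.Defs

set_option autoImplicit false

/-!
# Extension of scalars of binary codes
-/

namespace Pool.Agent.H89.CC.L.EXT

open Pool.Agent.H89.CC

theorem perp_perp {F E : Type} [Field F] [Fintype E] (V : Submodule F (E → F)) :
    perp (perp V) = V := by
  classical
  apply le_antisymm
  · intro y hy
    by_contra hV
    obtain ⟨f, hf, hle⟩ := Submodule.exists_le_ker_of_notMem hV
    have hfx : ∀ x : E → F, f x = ∑ i, x i * f (Pi.single i 1) := by
      intro x
      conv_lhs => rw [← Finset.univ_sum_single x]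
      rw [map_sum]
      refine Finset.sum_congr rfl fun i _ => ?_
      have h1 : (Pi.single i (x i) : E → F) = x i • Pi.single i 1 := by
        rw [← Pi.single_smul, smul_eq_mul, mul_one]
      rw [h1, map_smul, smul_eq_mul]
    have hz : (fun i => f (Pi.single i 1)) ∈ perp V := by
      intro x hx
      have h2 : f x = 0 := hle hx
      rw [hfx] at h2
      exact h2
    apply hf
    have h3 := hy _ hz
    rw [hfx]
    rw [← h3]
    exact Finset.sum_congr rfl fun i _ => mul_comm _ _
  · intro x hx y hy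
    rw [← hy x hx]
    exact Finset.sum_congr rfl fun i _ => mul_comm _ _

section

variable {K : Type} [Field K] [Algebra (ZMod 2) K] {E : Type} [Fintype E]

/-- the word over the large field -/
def up (u : E → ZMod 2) : E → K := fun i => algebraMap (ZMod 2) K (u i)

/-- the extension of a code -/
def ext (V : Submodule (ZMod 2) (E → ZMod 2)) : Submodule K (E → K) where
  carrier := {z | ∀ y ∈ perp V, ∑ i, z i * algebraMap (ZMod 2) K (y i) = 0}
  add_mem' := by
    intro a b ha hb y hy
    simp only [Pi.add_apply, add_mul, Finset.sum_add_distrib]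
    rw [ha y hy, hb y hy, add_zero]
  zero_mem' := by
    intro y _
    simp
  smul_mem' := by
    intro c a ha y hy
    simp only [Pi.smul_apply, smul_eq_mul, mul_assoc, ← Finset.mul_sum]
    rw [ha y hy, mul_zero]

theorem up_eq_zero (u : E → ZMod 2) (i : E) : (up u i : K) = 0 ↔ u i = 0 := by
  unfold up
  exact map_eq_zero _

theorem up_mem {V : Submodule (ZMod 2) (E → ZMod 2)} {u : E → ZMod 2} (hu : u ∈ V) :
    (up u : E → K) ∈ (ext V : Submodule K (E → K)) := by
  intro y hy
  have h := hy u hu
  have h2 := congrArg (algebraMap (ZMod 2) K) h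
  rw [map_sum, map_zero] at h2
  rw [← h2]
  exact Finset.sum_congr rfl fun i _ => (map_mul _ _ _).symm

theorem comp_mem {V : Submodule (ZMod 2) (E → ZMod 2)} {z : E → K}
    (hz : z ∈ (ext V : Submodule K (E → K))) (l : K →ₗ[ZMod 2] ZMod 2) :
    (fun i => l (z i)) ∈ V := by
  rw [← perp_perp V]
  intro y hy
  have h := hz y hy
  have h2 := congrArg l h
  rw [map_sum, map_zero] at h2
  rw [← h2]
  refine Finset.sum_congr rfl fun i _ => ?_
  rw [mul_comm (z i), ← Algebra.smul_def, map_smul, smul_eq_mul]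

theorem min_down {V : Submodule (ZMod 2) (E → ZMod 2)} {z : E → K}
    (hz : Min (ext V : Submodule K (E → K)) z) : ∃ u, Min V u ∧ ∀ i, z i = 0 ↔ u i = 0 := by
  obtain ⟨h1, h2, h3⟩ := hz
  obtain ⟨i0, hi0⟩ := Function.ne_iff.1 h2
  obtain ⟨l, hl⟩ := Module.Projective.exists_dual_ne_zero (ZMod 2) (x := z i0) hi0
  have hu : (fun i => l (z i)) ∈ V := comp_mem h1 l
  have hne : (fun i => l (z i)) ≠ 0 := fun h => hl (congrFun h i0)
  have hsub : ∀ i, z i = 0 → l (z i) = 0 := fun i hi => by rw [hi, map_zero]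
  have hup : ∀ i, l (z i) = 0 → z i = 0 := by
    intro i hi
    refine h3 (up fun i => l (z i)) (up_mem hu) ?_ ?_ i ((up_eq_zero _ _).2 hi)
    · intro h
      exact hne (funext fun i => (up_eq_zero (K := K) _ i).1 (congrFun h i))
    · intro i hi
      exact (up_eq_zero _ _).2 (hsub i hi)
  refine ⟨fun i => l (z i), ⟨hu, hne, ?_⟩, fun i => ⟨hsub i, hup i⟩⟩
  intro y hy hy0 hys i hi
  apply hsub
  refine h3 (up y) (up_mem hy) ?_ ?_ i ((up_eq_zero _ _).2 hi)
  · intro h
    exact hy0 (funext fun i => (up_eq_zero (K := K) _ i).1 (congrFun h i))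
  · intro i hi
    exact (up_eq_zero _ _).2 (hys i (hsub i hi))

theorem min_up {V : Submodule (ZMod 2) (E → ZMod 2)} {u : E → ZMod 2} (hu : Min V u) :
    Min (ext V : Submodule K (E → K)) (up u) := by
  obtain ⟨h1, h2, h3⟩ := hu
  refine ⟨up_mem h1, ?_, ?_⟩
  · intro h
    exact h2 (funext fun i => (up_eq_zero (K := K) _ i).1 (congrFun h i))
  · intro z hz hz0 hzs i hi
    obtain ⟨i0, hi0⟩ := Function.ne_iff.1 hz0
    obtain ⟨l, hl⟩ := Module.Projective.exists_dual_ne_zero (ZMod 2) (x := z i0) hi0
    rw [up_eq_zero]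
    refine h3 (fun i => l (z i)) (comp_mem hz l) (fun h => hl (congrFun h i0)) ?_ i ?_
    · intro i hi
      change l (z i) = 0
      rw [hzs i ((up_eq_zero _ _).2 hi), map_zero]
    · change l (z i) = 0
      rw [hi, map_zero]

theorem perp_ext (V : Submodule (ZMod 2) (E → ZMod 2)) :
    perp (ext V : Submodule K (E → K)) = ext (perp V) := by
  classical
  apply le_antisymm
  · intro y hy v hv
    rw [perp_perp] at hv
    rw [← hy (up v) (up_mem hv)]
    exact Finset.sum_congr rfl fun i _ => mul_comm _ _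
  · intro z hz x hx
    let B := Module.Basis.ofVectorSpace (ZMod 2) K
    let S : Finset _ := Finset.univ.biUnion fun i : E => (B.repr (x i)).support
    have hxi : ∀ i, x i = ∑ b ∈ S, algebraMap (ZMod 2) K (B.coord b (x i)) * B b := by
      intro i
      conv_lhs => rw [← B.linearCombination_repr (x i)]
      rw [Finsupp.linearCombination_apply, Finsupp.sum_of_support_subset (s := S)]
      · refine Finset.sum_congr rfl fun b _ => ?_
        rw [Algebra.smul_def]
        rfl
      · intro b hb
        exact Finset.mem_biUnion.2 ⟨i, Finset.mem_univ i, hb⟩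
      · intro b _
        rw [zero_smul]
    have h1 : ∀ i, x i * z i = ∑ b ∈ S, B b * (z i * algebraMap (ZMod 2) K (B.coord b (x i))) := by
      intro i
      conv_lhs => rw [hxi i]
      rw [Finset.sum_mul]
      exact Finset.sum_congr rfl fun b _ => by ring
    rw [Finset.sum_congr rfl fun i _ => h1 i, Finset.sum_comm]
    refine Finset.sum_eq_zero fun b _ => ?_
    rw [← Finset.mul_sum, hz (fun i => B.coord b (x i)) ?_, mul_zero]
    rw [perp_perp]
    exact comp_mem hx (B.coord b)

theorem meet_eq {c d : E → K} {c' d' : E → ZMod 2} (hc : ∀ i, c i = 0 ↔ c' i = 0)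
    (hd : ∀ i, d i = 0 ↔ d' i = 0) : meet c d = meet c' d' := by
  unfold meet
  congr 1
  ext i
  simp only [Set.mem_setOf_eq, ne_eq, hc i, hd i]

end

theorem main : S_EXT := by
  intro K _ _ t
  rintro ⟨E, hE, hE', V, ⟨c, d, hc, hd, hcd⟩, h⟩
  refine ⟨E, hE, hE', ext V, ⟨up c, up d, ?_, min_up hd, ?_⟩, ?_⟩
  · rw [perp_ext]
    exact min_up hc
  · rw [meet_eq (up_eq_zero c) (up_eq_zero d), hcd]
  · intro c d hc hd
    rw [perp_ext] at hc
    obtain ⟨c', hc', hcc⟩ := min_down hc
    obtain ⟨d', hd', hdd⟩ := min_down hd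
    rw [meet_eq hcc hdd]
    exact h c' d' hc' hd'

end Pool.Agent.H89.CC.L.EXT
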