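import Pool.Agent.H89.CC.Defs
import Pool.Agent.H89.CC.VecMatroid

/-! # CC-MAT: from codes to matroids -/

set_option autoImplicit false

namespace Pool.Agent.H89.CC.L.MAT

open Pool.Agent.H89.CC Pool.Agent.H89.CC.VecMatroid

variable {F E : Type} [Field F] [Fintype E] [DecidableEq E]

/-- the coordinate functionals on the code -/
def vv (V : Submodule F (E → F)) (i : E) : Module.Dual F V := (LinearMap.proj i).comp V.subtype

theorem vv_apply (V : Submodule F (E → F)) (i : E) (x : V) : vv V i x = x.1 i := rfl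

theorem isRel_iff (V : Submodule F (E → F)) (c : E → F) : IsRel (vv V) c ↔ c ∈ perp V := by
  unfold IsRel
  constructor
  · intro h x hx
    have h2 := LinearMap.congr_fun h ⟨x, hx⟩
    rw [LinearMap.sum_apply] at h2
    simp only [LinearMap.smul_apply, vv_apply, smul_eq_mul, LinearMap.zero_apply] at h2
    rw [← h2]
    exact Finset.sum_congr rfl fun i _ => mul_comm _ _
  · intro h
    ext x
    rw [LinearMap.sum_apply]
    simp only [LinearMap.smul_apply, vv_apply, smul_eq_mul, LinearMap.zero_apply]
    have h2 := h x.1 x.2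
    rw [← h2]
    exact Finset.sum_congr rfl fun i _ => mul_comm _ _

theorem circ_of_min (V : Submodule F (E → F)) {c : E → F} (hc : Min (perp V) c) :
    (vecMatroid F (vv V)).IsCircuit (Function.support c) := by
  refine isCircuit_of_minimal (vv V) hc.2.1 ((isRel_iff V c).2 hc.1) fun d hd hrel hsub => ?_
  intro i hi
  rw [Function.mem_support] at hi ⊢
  intro hdi
  refine hi (hc.2.2 d ((isRel_iff V d).1 hrel) hd (fun j hj => ?_) i hdi)
  by_contra hdj
  exact hsub hdj hj

theorem min_of_circ (V : Submodule F (E → F)) {C : Set E} (hC : (vecMatroid F (vv V)).IsCircuit C) :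
    ∃ c, Min (perp V) c ∧ Function.support c = C := by
  obtain ⟨c, hc, hrel, hs⟩ := exists_of_isCircuit (vv V) hC
  refine ⟨c, ⟨(isRel_iff V c).1 hrel, hc, fun y hy hy0 hsub i hi => ?_⟩, hs⟩
  have h1 : Function.support y ⊆ C := by
    rw [← hs]
    intro j hj hcj
    exact hj (hsub j hcj)
  have h2 : (vecMatroid F (vv V)).Dep (Function.support y) :=
    (dep_iff (vv V)).2 ⟨y, hy0, (isRel_iff V y).2 hy, subset_rfl⟩
  have h3 := hC.eq_of_dep_subset h2 h1
  by_contra hci
  have h4 : i ∈ C := by
    rw [← hs]
    exact hci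
  rw [← h3] at h4
  exact h4 hi

theorem ev_apply (V : Submodule F (E → F)) (x : V) (i : E) :
    (Module.evalEquiv F V x) (vv V i) = x.1 i := by
  rw [Module.evalEquiv_apply]
  rfl

theorem cocirc_of_min (V : Submodule F (E → F)) {d : E → F} (hd : Min V d) :
    (vecMatroid F (vv V)).IsCocircuit (Function.support d) := by
  have h1 := isCocircuit_of_minimal (vv V) (Module.evalEquiv F V ⟨d, hd.1⟩) ?_ ?_
  · have e : {i | (Module.evalEquiv F V ⟨d, hd.1⟩) (vv V i) ≠ 0} = Function.support d := by
      ext i
      rw [Function.mem_support]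
      show (Module.evalEquiv F V ⟨d, hd.1⟩) (vv V i) ≠ 0 ↔ _
      rw [ev_apply]
    rwa [e] at h1
  · by_contra hcon
    push Not at hcon
    apply hd.2.1
    funext i
    have := hcon i
    rwa [ev_apply] at this
  · intro g hg hsub i hi
    obtain ⟨y, rfl⟩ := (Module.evalEquiv F V).surjective g
    simp only [ev_apply] at hg hsub hi ⊢
    intro hyi
    refine hi (hd.2.2 y.1 y.2 ?_ (fun j hj => ?_) i hyi)
    · intro h0
      obtain ⟨j, hj⟩ := hg
      exact hj (congrFun h0 j)
    · by_contra hyj
      exact hsub j hyj hj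

theorem min_of_cocirc (V : Submodule F (E → F)) {K : Set E}
    (hK : (vecMatroid F (vv V)).IsCocircuit K) : ∃ d, Min V d ∧ Function.support d = K := by
  obtain ⟨f, hf, hs⟩ := exists_of_isCocircuit (vv V) hK
  obtain ⟨x, rfl⟩ := (Module.evalEquiv F V).surjective f
  have hs' : Function.support x.1 = K := by
    rw [← hs]
    ext i
    rw [Function.mem_support]
    show _ ↔ (Module.evalEquiv F V x) (vv V i) ≠ 0
    rw [ev_apply]
  simp only [ev_apply] at hf
  refine ⟨x.1, ⟨x.2, ?_, fun y hy hy0 hsub i hi => ?_⟩, hs'⟩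
  · intro h0
    obtain ⟨j, hj⟩ := hf
    exact hj (congrFun h0 j)
  · have h1 : Function.support y ⊆ K := by
      rw [← hs']
      intro j hj hcj
      exact hj (hsub j hcj)
    have hK' := hK
    rw [Matroid.isCocircuit_iff_minimal_compl_nonspanning] at hK'
    have h2 : ¬ (vecMatroid F (vv V)).Spanning ((Function.support y)ᶜ) := by
      rw [not_spanning_compl_iff]
      refine ⟨Module.evalEquiv F V ⟨y, hy⟩, ?_, ?_⟩
      · by_contra hcon
        push Not at hcon
        apply hy0
        funext j
        have := hcon j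
        rwa [ev_apply] at this
      · intro j hj
        have hj' : (Module.evalEquiv F V ⟨y, hy⟩) (vv V j) ≠ 0 := hj
        rw [ev_apply] at hj'
        exact hj'
    have h3 : Function.support y = K := by
      apply hK'.eq_of_subset ?_ h1
      rw [vecMatroid_E, ← Set.compl_eq_univ_sdiff]
      exact h2
    by_contra hci
    have h4 : i ∈ K := by
      rw [← hs']
      exact hci
    rw [← h3] at h4
    exact h4 hi

theorem meet_eq (c d : E → F) : meet c d = (Function.support c ∩ Function.support d).ncard := rfl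

theorem main : S_MAT := by
  intro F _ k hS
  obtain ⟨E, _, _, V, ⟨c, d, hc, hd, hcd⟩, hno⟩ := hS
  refine ⟨E, vecMatroid F (vv V), vecMatroid_finite _, ⟨_, _, circ_of_min V hc, cocirc_of_min V hd, ?_⟩, ?_⟩
  · rw [← meet_eq]
    exact hcd
  · rintro ⟨C, K, hC, hK, hCK⟩
    obtain ⟨c', hc', rfl⟩ := min_of_circ V hC
    obtain ⟨d', hd', rfl⟩ := min_of_cocirc V hK
    exact hno c' d' hc' hd' (by rw [meet_eq]; exact hCK)

end Pool.Agent.H89.CC.L.MAT
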