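import Pool.Agent.H89.CC.Defs

/-! # CC-MEET (helper43) -/

set_option autoImplicit false

namespace Pool.Agent.H89.CC.L.MEET

open Pool.Agent.H89.CC

lemma sub_card {A : Type} [Fintype A] (p : A) (P : A → Prop) :
    {i : {i : A // i ≠ p} | P i.1}.ncard = {i : A | i ≠ p ∧ P i}.ncard := by
  have h : {i : A | i ≠ p ∧ P i} = Subtype.val '' {i : {i : A // i ≠ p} | P i.1} := by
    ext i
    constructor
    · rintro ⟨h1, h2⟩
      exact ⟨⟨i, h1⟩, h2, rfl⟩
    · rintro ⟨j, hj, rfl⟩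
      exact ⟨j.2, hj⟩
  rw [h, Set.ncard_image_of_injective _ Subtype.val_injective]

lemma split {A : Type} [Fintype A] (p : A) (P : A → Prop) :
    {i : A | P i}.ncard = {i : A | i ≠ p ∧ P i}.ncard + {i : A | i = p ∧ P i}.ncard := by
  classical
  rw [← Set.ncard_union_eq _ (Set.toFinite _) (Set.toFinite _)]
  · congr 1
    ext i
    simp only [Set.mem_union, Set.mem_ofPred_eq]
    tauto
  · rw [Set.disjoint_left]
    rintro i ⟨h1, _⟩ ⟨h2, _⟩
    exact h1 h2

lemma joint_card {F A B : Type} [Field F] [Fintype A] [Fintype B] (p : A) (q : B) (c d : A → F) (c' d' : B → F) :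
    meet (joint p q c c') (joint p q d d') =
      {i : A | i ≠ p ∧ (c i ≠ 0 ∧ d i ≠ 0)}.ncard + {j : B | j ≠ q ∧ (c' j ≠ 0 ∧ d' j ≠ 0)}.ncard := by
  classical
  have h : {s : {i : A // i ≠ p} ⊕ {j : B // j ≠ q} | joint p q c c' s ≠ 0 ∧ joint p q d d' s ≠ 0} =
      Sum.inl '' {i : {i : A // i ≠ p} | c i.1 ≠ 0 ∧ d i.1 ≠ 0} ∪
        Sum.inr '' {j : {j : B // j ≠ q} | c' j.1 ≠ 0 ∧ d' j.1 ≠ 0} := by
    ext s
    rcases s with i | j
    · simp [joint]
    · simp [joint]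
  unfold meet
  rw [h, Set.ncard_union_eq _ (Set.toFinite _) (Set.toFinite _),
    Set.ncard_image_of_injective _ Sum.inl_injective, Set.ncard_image_of_injective _ Sum.inr_injective]
  · rw [← sub_card p (fun i => c i ≠ 0 ∧ d i ≠ 0), ← sub_card q (fun j => c' j ≠ 0 ∧ d' j ≠ 0)]
  · rw [Set.disjoint_left]
    rintro s ⟨i, _, rfl⟩ ⟨j, _, h⟩
    cases h

lemma one_card {A : Type} (p : A) (P : A → Prop) (h : P p) : {i : A | i = p ∧ P i}.ncard = 1 := by
  have e : {i : A | i = p ∧ P i} = {p} := by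
    ext i
    constructor
    · rintro ⟨h1, _⟩
      exact h1
    · rintro rfl
      exact ⟨rfl, h⟩
  rw [e, Set.ncard_singleton]

lemma zero_card {A : Type} (p : A) (P : A → Prop) (h : ¬ P p) : {i : A | i = p ∧ P i}.ncard = 0 := by
  have e : {i : A | i = p ∧ P i} = ∅ := by
    ext i
    constructor
    · rintro ⟨rfl, h2⟩
      exact absurd h2 h
    · intro h'
      exact absurd h' (Set.notMem_empty _)
  rw [e, Set.ncard_empty]

theorem main : S_MEET := by
  intro F _ A B _ _ _ _ p q c d c' d'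
  have hj := joint_card p q c d c' d'
  have h1 : meet c d = _ := split p (fun i => c i ≠ 0 ∧ d i ≠ 0)
  have h2 : meet c' d' = _ := split q (fun j => c' j ≠ 0 ∧ d' j ≠ 0)
  refine ⟨fun hp => ?_, fun hc hd hc' hd' => ?_, fun hp => ?_, ?_, ?_⟩
  · have h3 := zero_card p (fun i => c i ≠ 0 ∧ d i ≠ 0) (fun h => h.1 hp)
    rw [hj, h1, h2, h3]
    ring
  · have h3 := one_card p (fun i => c i ≠ 0 ∧ d i ≠ 0) ⟨hc, hd⟩
    have h4 := one_card q (fun j => c' j ≠ 0 ∧ d' j ≠ 0) ⟨hc', hd'⟩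
    rw [hj, h1, h2, h3, h4]
    ring
  · have h3 := zero_card p (fun i => c i ≠ 0 ∧ d i ≠ 0) (fun h => h.2 hp)
    rw [hj, h1, h2, h3]
    ring
  · unfold meet
    simp
  · unfold meet
    simp

end Pool.Agent.H89.CC.L.MEET
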