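import Pool.Agent.H89.CC.Defs

/-! # CC-MINW: certificate for minimal support -/

set_option autoImplicit false

namespace Pool.Agent.H89.CC.L.MINW

open Pool.Agent.H89.CC

theorem main : S_MINW := by
  intro E _ _ V w n e v hw hw0 hcov hperp hk
  refine ⟨hw, hw0, fun y hy hy0 hsub => ?_⟩
  have hone : ∀ a : ZMod 2, a ≠ 0 → a = 1 := by decide
  have hadd : ∀ a b : ZMod 2, a + b = 0 → a = b := by decide
  have hstep : ∀ k < n, y (e k) = y (e (k + 1)) := by
    intro k hkn
    have h1 : ∑ i, y i * v k i = 0 := hperp k hkn y hy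
    obtain ⟨hne, hv⟩ := hk k hkn
    have h2 : ∀ i, y i * v k i = (if i = e k then y i else 0) + (if i = e (k + 1) then y i else 0) := by
      intro i
      by_cases hyi : y i = 0
      · simp [hyi]
      · have hwi : w i ≠ 0 := fun h => hyi (hsub i h)
        have h3 := hv i hwi
        by_cases hi : i = e k ∨ i = e (k + 1)
        · rw [hone _ (h3.2 hi), mul_one]
          rcases hi with hi | hi
          · rw [if_pos hi, if_neg (fun h => hne (hi.symm.trans h)), add_zero]
          · rw [if_neg (fun h => hne (h.symm.trans hi)), if_pos hi, zero_add]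
        · have h4 : v k i = 0 := by
            by_contra hc
            exact hi (h3.1 hc)
          rw [h4, mul_zero, if_neg (fun h => hi (Or.inl h)), if_neg (fun h => hi (Or.inr h)), add_zero]
    rw [Finset.sum_congr rfl (fun i _ => h2 i), Finset.sum_add_distrib, Finset.sum_ite_eq',
      Finset.sum_ite_eq', if_pos (Finset.mem_univ _), if_pos (Finset.mem_univ _)] at h1
    exact hadd _ _ h1
  have hconst : ∀ k ≤ n, y (e k) = y (e 0) := by
    intro k
    induction k with
    | zero => intro _; rfl
    | succ k ih =>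
      intro hkn
      rw [← hstep k (by omega)]
      exact ih (by omega)
  obtain ⟨i₀, hi₀⟩ : ∃ i, y i ≠ 0 := by
    by_contra hcon
    push Not at hcon
    exact hy0 (funext hcon)
  obtain ⟨k₀, hk₀, rfl⟩ := hcov i₀ (fun h => hi₀ (hsub _ h))
  intro i hi
  by_contra hwi
  obtain ⟨k, hk', rfl⟩ := hcov i hwi
  apply hi₀
  rw [hconst k₀ hk₀, ← hconst k hk', hi]

end Pool.Agent.H89.CC.L.MINW
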