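import Pool.Agent.H89.CC.Defs

/-! # CC-PERP (helper61) -/

set_option autoImplicit false

namespace Pool.Agent.H89.CC.L.PERP

theorem main : S_PERP := by
  intro F _ _ A B _ _ _ _ V p W q ⟨x0, hx0, hx0p⟩ ⟨y0, hy0, hy0q⟩
  have hsum : ∀ (z z' : {i : A // i ≠ p} ⊕ {j : B // j ≠ q} → F), ∑ i, z i * z' i =
      (∑ i : {i : A // i ≠ p}, z (Sum.inl i) * z' (Sum.inl i)) +
        ∑ j : {j : B // j ≠ q}, z (Sum.inr j) * z' (Sum.inr j) :=
    fun z z' => Fintype.sum_sum_type _
  apply le_antisymm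
  · intro z hz
    have hz' : ∀ x ∈ V, ∀ y ∈ W, x p = y q →
        (∑ i : {i : A // i ≠ p}, x i.1 * z (Sum.inl i)) +
          ∑ j : {j : B // j ≠ q}, y j.1 * z (Sum.inr j) = 0 := by
      intro x hx y hy hxy
      have h1 := hz (joint p q x y) ⟨x, hx, y, hy, hxy, rfl⟩
      rw [hsum] at h1
      exact h1
    set φ₁ : (A → F) → F := fun x => ∑ i : {i : A // i ≠ p}, x i.1 * z (Sum.inl i) with hφ₁
    set φ₂ : (B → F) → F := fun y => ∑ j : {j : B // j ≠ q}, y j.1 * z (Sum.inr j) with hφ₂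
    have hφ₁0 : ∀ x ∈ V, x p = 0 → φ₁ x = 0 := by
      intro x hx hxp
      have h1 := hz' x hx 0 W.zero_mem hxp
      simpa [hφ₁] using h1
    have hφ₂0 : ∀ y ∈ W, y q = 0 → φ₂ y = 0 := by
      intro y hy hyq
      have h1 := hz' 0 V.zero_mem y hy hyq.symm
      simpa [hφ₂] using h1
    set x1 : A → F := (x0 p)⁻¹ • x0 with hx1
    set y1 : B → F := (y0 q)⁻¹ • y0 with hy1
    have hx1V : x1 ∈ V := V.smul_mem _ hx0
    have hy1W : y1 ∈ W := W.smul_mem _ hy0
    have hx1p : x1 p = 1 := by simp [hx1, hx0p]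
    have hy1q : y1 q = 1 := by simp [hy1, hy0q]
    have hβ : φ₁ x1 = φ₂ y1 := by
      have h1 := hz' x1 hx1V y1 hy1W (by rw [hx1p, hy1q])
      exact CharTwo.add_eq_zero.1 h1
    have hφ₁x : ∀ x ∈ V, φ₁ x = x p * φ₁ x1 := by
      intro x hx
      have h1 := hφ₁0 (x - x p • x1) (V.sub_mem hx (V.smul_mem _ hx1V)) (by simp [hx1p])
      have h2 : φ₁ (x - x p • x1) = φ₁ x - x p * φ₁ x1 := by
        simp only [hφ₁]
        rw [Finset.mul_sum, ← Finset.sum_sub_distrib]
        refine Finset.sum_congr rfl fun i _ => ?_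
        simp only [Pi.sub_apply, Pi.smul_apply, smul_eq_mul]
        ring
      rw [h2, sub_eq_zero] at h1
      exact h1
    have hφ₂y : ∀ y ∈ W, φ₂ y = y q * φ₂ y1 := by
      intro y hy
      have h1 := hφ₂0 (y - y q • y1) (W.sub_mem hy (W.smul_mem _ hy1W)) (by simp [hy1q])
      have h2 : φ₂ (y - y q • y1) = φ₂ y - y q * φ₂ y1 := by
        simp only [hφ₂]
        rw [Finset.mul_sum, ← Finset.sum_sub_distrib]
        refine Finset.sum_congr rfl fun i _ => ?_
        simp only [Pi.sub_apply, Pi.smul_apply, smul_eq_mul]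
        ring
      rw [h2, sub_eq_zero] at h1
      exact h1
    refine ⟨fun i => if h : i = p then φ₁ x1 else z (Sum.inl ⟨i, h⟩), ?_,
      fun j => if h : j = q then φ₂ y1 else z (Sum.inr ⟨j, h⟩), ?_, ?_, ?_⟩
    · intro x hx
      rw [Fintype.sum_eq_add_sum_subtype_ne _ p]
      have h1 : ∑ i : {i : A // i ≠ p}, x i.1 * (if h : i.1 = p then φ₁ x1 else z (Sum.inl ⟨i.1, h⟩)) =
          φ₁ x := by
        simp only [hφ₁]
        refine Finset.sum_congr rfl fun i _ => ?_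
        rw [dif_neg i.2]
      rw [h1]
      beta_reduce
      rw [dif_pos rfl, hφ₁x x hx]
      exact CharTwo.add_self_eq_zero _
    · intro y hy
      rw [Fintype.sum_eq_add_sum_subtype_ne _ q]
      have h1 : ∑ j : {j : B // j ≠ q}, y j.1 * (if h : j.1 = q then φ₂ y1 else z (Sum.inr ⟨j.1, h⟩)) =
          φ₂ y := by
        simp only [hφ₂]
        refine Finset.sum_congr rfl fun j _ => ?_
        rw [dif_neg j.2]
      rw [h1]
      beta_reduce
      rw [dif_pos rfl, hφ₂y y hy]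
      exact CharTwo.add_self_eq_zero _
    · simp only [dif_pos]
      exact hβ
    · funext i
      rcases i with ⟨i, hi⟩ | ⟨j, hj⟩
      · simp [joint, hi]
      · simp [joint, hj]
  · rintro _ ⟨a, ha, b, hb, hab, rfl⟩ _ ⟨x, hx, y, hy, hxy, rfl⟩
    rw [hsum]
    have h1 := ha x hx
    have h2 := hb y hy
    rw [Fintype.sum_eq_add_sum_subtype_ne _ p] at h1
    rw [Fintype.sum_eq_add_sum_subtype_ne _ q, ← hxy, ← hab] at h2
    have h3 := CharTwo.add_eq_zero.1 h1
    have h4 := CharTwo.add_eq_zero.1 h2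
    simp only [joint, Sum.elim_inl, Sum.elim_inr]
    rw [← h3, ← h4]
    exact CharTwo.add_self_eq_zero _

end Pool.Agent.H89.CC.L.PERP
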