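import Pool.Agent.H89.CC.Defs

set_option autoImplicit false

/-! CC-SD (helper69): self-dual codes. -/

namespace Pool.Agent.H89.CC

namespace L.SD

open Module

section

variable {E : Type} [Fintype E] [DecidableEq E]

lemma wt_eq (x : E → ZMod 2) : wt x = ∑ i, if x i ≠ 0 then 1 else 0 := by
  classical
  unfold wt
  rw [Set.ncard_eq_toFinset_card', Set.toFinset_setOf, Finset.card_filter]

lemma meet_eq (x y : E → ZMod 2) : meet x y = ∑ i, if x i ≠ 0 ∧ y i ≠ 0 then 1 else 0 := by
  classical
  unfold meet
  rw [Set.ncard_eq_toFinset_card', Set.toFinset_setOf, Finset.card_filter]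

lemma pt : ∀ a b : ZMod 2, (if a ≠ 0 then 1 else 0) + (if b ≠ 0 then 1 else 0) =
    (if a + b ≠ 0 then 1 else 0) + 2 * (if a ≠ 0 ∧ b ≠ 0 then 1 else 0) := by decide

lemma wt_add (x y : E → ZMod 2) : wt x + wt y = wt (x + y) + 2 * meet x y := by
  rw [wt_eq, wt_eq, wt_eq, meet_eq, ← Finset.sum_add_distrib, Finset.mul_sum,
    ← Finset.sum_add_distrib]
  exact Finset.sum_congr rfl fun i _ => pt (x i) (y i)

lemma meet_self (x : E → ZMod 2) : meet x x = wt x := by
  unfold meet wt; simp

/-- the pairing -/
noncomputable def pair (V : Submodule (ZMod 2) (E → ZMod 2)) :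
    (E → ZMod 2) →ₗ[ZMod 2] (V →ₗ[ZMod 2] ZMod 2) where
  toFun y :=
    { toFun := fun x => ∑ i, x.1 i * y i
      map_add' := by
        intro a b
        simp [add_mul, Finset.sum_add_distrib]
      map_smul' := by
        intro c a
        simp [mul_assoc, Finset.mul_sum] }
  map_add' := by
    intro a b
    ext x
    simp [mul_add, Finset.sum_add_distrib]
  map_smul' := by
    intro c a
    ext x
    simp [mul_left_comm, Finset.mul_sum]

lemma ker_pair (V : Submodule (ZMod 2) (E → ZMod 2)) : LinearMap.ker (pair V) = perp V := by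
  ext y
  rw [LinearMap.mem_ker]
  constructor
  · intro h x hx
    have := congrArg (fun f => f ⟨x, hx⟩) h
    simpa [pair] using this
  · intro h
    ext x
    exact h x.1 x.2

lemma dim_perp (V : Submodule (ZMod 2) (E → ZMod 2)) :
    Fintype.card E ≤ finrank (ZMod 2) V + finrank (ZMod 2) (perp V) := by
  have h1 := LinearMap.finrank_range_add_finrank_ker (pair V)
  rw [ker_pair, Module.finrank_pi] at h1
  have h2 : finrank (ZMod 2) (LinearMap.range (pair V)) ≤ finrank (ZMod 2) V := by
    calc finrank (ZMod 2) (LinearMap.range (pair V))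
        ≤ finrank (ZMod 2) (V →ₗ[ZMod 2] ZMod 2) := Submodule.finrank_le _
      _ = finrank (ZMod 2) V := Subspace.dual_finrank_eq
  omega

/-- restriction to the zeros of `c` -/
noncomputable def restr (V : Submodule (ZMod 2) (E → ZMod 2)) (c : E → ZMod 2) :
    V →ₗ[ZMod 2] ({i // c i = 0} → ZMod 2) where
  toFun x := fun i => x.1 i.1
  map_add' := by intro a b; rfl
  map_smul' := by intro a b; rfl

lemma zmod2 : ∀ a b : ZMod 2, a ≠ 0 → b ≠ 0 → a = b := by decide

lemma eq_of_min {V : Submodule (ZMod 2) (E → ZMod 2)} {c : E → ZMod 2} (hc : Min V c)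
    {y : E → ZMod 2} (hy : y ∈ V) (hy0 : y ≠ 0) (hs : ∀ i, c i = 0 → y i = 0) : y = c := by
  funext i
  by_cases h : c i = 0
  · rw [h, hs i h]
  · have h1 : y i ≠ 0 := fun h1 => h (hc.2.2 y hy hy0 hs i h1)
    exact zmod2 _ _ h1 h

lemma wt_le {V : Submodule (ZMod 2) (E → ZMod 2)} {s : ℕ} (hE : Fintype.card E = 8 * s)
    (hV : perp V = V) {c : E → ZMod 2} (hc : Min V c) : wt c ≤ 4 * s + 1 := by
  have h1 := dim_perp V
  rw [hV, hE] at h1
  have h2 := LinearMap.finrank_range_add_finrank_ker (restr V c)
  have h3 : finrank (ZMod 2) (LinearMap.range (restr V c)) ≤ Fintype.card {i // c i = 0} := by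
    calc finrank (ZMod 2) (LinearMap.range (restr V c))
        ≤ finrank (ZMod 2) ({i // c i = 0} → ZMod 2) := Submodule.finrank_le _
      _ = Fintype.card {i // c i = 0} := Module.finrank_pi _
  have h4 : Fintype.card {i // c i = 0} + wt c = 8 * s := by
    rw [← hE, wt_eq, Fintype.card_subtype, Finset.card_filter, ← Finset.sum_add_distrib,
      Fintype.card, Finset.card_eq_sum_ones]
    refine Finset.sum_congr rfl fun i _ => ?_
    by_cases h : c i = 0
    · simp [h]
    · simp [h]
  have h5 : finrank (ZMod 2) (LinearMap.ker (restr V c)) ≤ 1 := by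
    have hmem : (⟨c, hc.1⟩ : V) ∈ LinearMap.ker (restr V c) := by
      rw [LinearMap.mem_ker]
      funext i
      exact i.2
    refine finrank_le_one (⟨⟨c, hc.1⟩, hmem⟩ : LinearMap.ker (restr V c)) fun y => ?_
    have hyk := y.2
    rw [LinearMap.mem_ker] at hyk
    by_cases hy0 : y = 0
    · exact ⟨0, by rw [hy0, zero_smul]⟩
    · refine ⟨1, ?_⟩
      rw [one_smul]
      apply Subtype.ext
      apply Subtype.ext
      symm
      apply eq_of_min hc y.1.2
      · intro h
        apply hy0
        apply Subtype.ext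
        apply Subtype.ext
        exact h
      · intro i hi
        exact congrFun hyk ⟨i, hi⟩
  omega

end

theorem main : S_SD := by
  intro E _ _ s V w hs hE hV h4 hne4 hw hws
  refine ⟨E, inferInstance, inferInstance, V, ⟨w, w, ?_, hw, ?_⟩, ?_⟩
  · rw [hV]; exact hw
  · rw [meet_self, hws]
  · intro c d hc hd
    rw [hV] at hc
    have hcw := wt_le hE hV hc
    have hdw := wt_le hE hV hd
    obtain ⟨a, ha⟩ := h4 c hc.1
    obtain ⟨b, hb⟩ := h4 d hd.1
    by_cases hcd : c = d
    · subst hcd
      rw [meet_self]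
      omega
    · right
      have hsum : c + d ∈ V := V.add_mem hc.1 hd.1
      have hsum0 : c + d ≠ 0 := by
        intro h
        apply hcd
        funext i
        have h1 : c i + d i = 0 := congrFun h i
        have h2 : ∀ a b : ZMod 2, a + b = 0 → a = b := by decide
        exact h2 _ _ h1
      obtain ⟨e, he⟩ := h4 _ hsum
      have h5 := hne4 _ hsum
      have h6 : wt (c + d) ≠ 0 := by
        intro h
        apply hsum0
        unfold wt at h
        rw [Set.ncard_eq_zero (Set.toFinite _)] at h
        funext i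
        by_contra hi
        have : i ∈ {i : E | (c + d) i ≠ 0} := hi
        rw [h] at this
        exact this
      have h7 := wt_add c d
      omega

end L.SD

end Pool.Agent.H89.CC
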