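import Mathlib
import Pool.Agent.H89.CC.Defs

/-!
# The code of the uniform matroid `U_{2,4}`
-/

set_option autoImplicit false

namespace Pool.Agent.H89.CC.L.UF

open Pool.Agent.H89.CC

variable {F : Type} [Field F]

/-- minimal words of a code in which no nonzero word vanishes twice -/
lemma min_iff (C : Submodule F (Fin 4 → F))
    (hA : ∀ z ∈ C, ∀ i j : Fin 4, i ≠ j → z i = 0 → z j = 0 → z = 0)
    (hB : ∃ y ∈ C, y ≠ 0 ∧ ∃ i, y i = 0) (z : Fin 4 → F) :
    Min C z ↔ z ∈ C ∧ z ≠ 0 ∧ ∃ i, z i = 0 := by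
  constructor
  · rintro ⟨h1, h2, h3⟩
    refine ⟨h1, h2, ?_⟩
    by_contra hcon
    push Not at hcon
    obtain ⟨y, hy, hy0, i, hi⟩ := hB
    exact hcon i (h3 y hy hy0 (fun k hk => absurd hk (hcon k)) i hi)
  · rintro ⟨h1, h2, i, hi⟩
    refine ⟨h1, h2, fun y hy hy0 hs k hk => ?_⟩
    by_cases hik : i = k
    · rw [← hik]; exact hi
    · exact absurd (hA y hy i k hik (hs i hi) hk) hy0

lemma card_erase (i j : Fin 4) :
    ((Finset.univ.erase i).erase j).card = if i = j then 3 else 2 := by
  revert i j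
  decide

lemma meet_eq (c d : Fin 4 → F) (i j : Fin 4) (hi : c i = 0) (hj : d j = 0)
    (hc : ∀ k, k ≠ i → c k ≠ 0) (hd : ∀ k, k ≠ j → d k ≠ 0) :
    meet c d = if i = j then 3 else 2 := by
  have e : {k : Fin 4 | c k ≠ 0 ∧ d k ≠ 0} = (((Finset.univ.erase i).erase j : Finset (Fin 4)) : Set (Fin 4)) := by
    ext k
    simp only [Set.mem_setOf_eq, Finset.coe_erase, Finset.coe_univ, Set.mem_diff, Set.mem_univ,
      true_and, Set.mem_singleton_iff]
    constructor
    · rintro ⟨h1, h2⟩
      refine ⟨fun h => h1 (by rw [h]; exact hi), fun h => h2 (by rw [h]; exact hj)⟩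
    · rintro ⟨h1, h2⟩
      exact ⟨hc k h1, hd k h2⟩
  unfold meet
  rw [e, Set.ncard_coe_finset, card_erase]

/-- the code -/
def W (w : F) : Submodule F (Fin 4 → F) where
  carrier := {z | z 2 = z 0 + z 1 ∧ z 3 = z 0 + w * z 1}
  add_mem' := by
    rintro a b ⟨h1, h2⟩ ⟨h3, h4⟩
    refine ⟨?_, ?_⟩
    · simp only [Pi.add_apply, h1, h3]; ring
    · simp only [Pi.add_apply, h2, h4]; ring
  zero_mem' := by simp
  smul_mem' := by
    rintro c a ⟨h1, h2⟩
    refine ⟨?_, ?_⟩
    · simp only [Pi.smul_apply, smul_eq_mul, h1]; ring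
    · simp only [Pi.smul_apply, smul_eq_mul, h2]; ring

lemma mem_W (w : F) (z : Fin 4 → F) : z ∈ W w ↔ z 2 = z 0 + z 1 ∧ z 3 = z 0 + w * z 1 := Iff.rfl

lemma mem_perp [CharP F 2] (w : F) (y : Fin 4 → F) :
    y ∈ perp (W w) ↔ y 0 = y 2 + y 3 ∧ y 1 = y 2 + w * y 3 := by
  have h2 : ∀ a : F, a + a = 0 := fun a => CharTwo.add_self_eq_zero a
  constructor
  · intro h
    have ha := h ![1, 0, 1, 1] (by rw [mem_W]; simp)
    have hb := h ![0, 1, 1, w] (by rw [mem_W]; simp)
    simp only [Fin.sum_univ_four, Matrix.cons_val_zero, Matrix.cons_val_one, Matrix.cons_val] at ha hb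
    constructor
    · have := h2 (y 2 + y 3)
      linear_combination ha - this
    · have := h2 (y 2 + w * y 3)
      linear_combination hb - this
  · rintro ⟨ha, hb⟩ x ⟨hx1, hx2⟩
    rw [Fin.sum_univ_four, hx1, hx2, ha, hb]
    have h3 := h2 (x 0 * (y 2 + y 3) + x 1 * (y 2 + w * y 3))
    linear_combination h3

theorem main : S_UF := by
  intro F _ _ w hw0 hw1
  have h2 : ∀ a : F, a + a = 0 := fun a => CharTwo.add_self_eq_zero a
  have hw1' : w + 1 ≠ 0 := fun h => hw1 (by
    have := h2 (1 : F)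
    linear_combination h - this)
  have key : ∀ b : F, b + w * b = 0 → b = 0 := by
    intro b hb
    have : (w + 1) * b = 0 := by linear_combination hb
    rcases mul_eq_zero.1 this with h | h
    · exact absurd h hw1'
    · exact h
  have hA : ∀ z ∈ W w, ∀ i j : Fin 4, i ≠ j → z i = 0 → z j = 0 → z = 0 := by
    rintro z ⟨h1, h3⟩ i j hij hi hj
    have hmain : z 0 = 0 ∧ z 1 = 0 := by
      fin_cases i <;> fin_cases j <;> simp only [Fin.zero_eta, Fin.mk_one, Fin.reduceFinMk] at hi hj hij <;>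
        first
        | exact absurd rfl hij
        | exact ⟨hi, hj⟩
        | exact ⟨hj, hi⟩
        | skip
      · rw [hi, hj] at h1
        exact ⟨hi, by linear_combination -h1⟩
      · rw [hi, hj] at h3
        have : w * z 1 = 0 := by linear_combination -h3
        exact ⟨hi, (mul_eq_zero.1 this).resolve_left hw0⟩
      · rw [hi, hj] at h1
        exact ⟨by linear_combination -h1, hi⟩
      · rw [hi, hj] at h3
        exact ⟨by linear_combination -h3, hi⟩
      · rw [hi, hj] at h1
        exact ⟨hj, by linear_combination -h1⟩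
      · rw [hi, hj] at h1
        exact ⟨by linear_combination -h1, hj⟩
      · have hb : z 1 = 0 := key _ (by
          rw [hi] at h1; rw [hj] at h3
          have := h2 (z 0)
          linear_combination -h1 - h3 - this)
        refine ⟨?_, hb⟩
        rw [hi, hb] at h1
        linear_combination -h1
      · rw [hi, hj] at h3
        have : w * z 1 = 0 := by linear_combination -h3
        exact ⟨hj, (mul_eq_zero.1 this).resolve_left hw0⟩
      · rw [hi, hj] at h3
        exact ⟨by linear_combination -h3, hj⟩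
      · have hb : z 1 = 0 := key _ (by
          rw [hj] at h1; rw [hi] at h3
          have := h2 (z 0)
          linear_combination -h1 - h3 - this)
        refine ⟨?_, hb⟩
        rw [hj, hb] at h1
        linear_combination -h1
    obtain ⟨ha, hb⟩ := hmain
    rw [ha, hb] at h1 h3
    funext k
    fin_cases k
    · exact ha
    · exact hb
    · simpa using h1
    · simpa using h3
  have hA' : ∀ z ∈ perp (W w), ∀ i j : Fin 4, i ≠ j → z i = 0 → z j = 0 → z = 0 := by
    intro z hz i j hij hi hj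
    rw [mem_perp] at hz
    obtain ⟨h1, h3⟩ := hz
    have hmain : z 2 = 0 ∧ z 3 = 0 := by
      fin_cases i <;> fin_cases j <;> simp only [Fin.zero_eta, Fin.mk_one, Fin.reduceFinMk] at hi hj hij <;>
        first
        | exact absurd rfl hij
        | exact ⟨hi, hj⟩
        | exact ⟨hj, hi⟩
        | skip
      · have hb : z 3 = 0 := key _ (by
          rw [hi] at h1; rw [hj] at h3
          have := h2 (z 2)
          linear_combination -h1 - h3 - this)
        refine ⟨?_, hb⟩
        rw [hi, hb] at h1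
        linear_combination -h1
      · rw [hi, hj] at h1
        exact ⟨hj, by linear_combination -h1⟩
      · rw [hi, hj] at h1
        exact ⟨by linear_combination -h1, hj⟩
      · have hb : z 3 = 0 := key _ (by
          rw [hj] at h1; rw [hi] at h3
          have := h2 (z 2)
          linear_combination -h1 - h3 - this)
        refine ⟨?_, hb⟩
        rw [hj, hb] at h1
        linear_combination -h1
      · rw [hi, hj] at h3
        have : w * z 3 = 0 := by linear_combination -h3
        exact ⟨hj, (mul_eq_zero.1 this).resolve_left hw0⟩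
      · rw [hi, hj] at h3
        exact ⟨by linear_combination -h3, hj⟩
      · rw [hi, hj] at h1
        exact ⟨hi, by linear_combination -h1⟩
      · rw [hi, hj] at h3
        have : w * z 3 = 0 := by linear_combination -h3
        exact ⟨hi, (mul_eq_zero.1 this).resolve_left hw0⟩
      · rw [hi, hj] at h1
        exact ⟨by linear_combination -h1, hi⟩
      · rw [hi, hj] at h3
        exact ⟨by linear_combination -h3, hi⟩
    obtain ⟨ha, hb⟩ := hmain
    rw [ha, hb] at h1 h3
    funext k
    fin_cases k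
    · simpa using h1
    · simpa using h3
    · exact ha
    · exact hb
  have d1 : (![1, 0, 1, 1] : Fin 4 → F) ∈ W w := by rw [mem_W]; simp
  have c1 : (![w + 1, 0, w, 1] : Fin 4 → F) ∈ perp (W w) := by
    rw [mem_perp]
    refine ⟨by simp, ?_⟩
    have := h2 w
    simp [this]
  have d0 : (![1, 0, 1, 1] : Fin 4 → F) ≠ 0 := fun h => one_ne_zero (congrFun h 0)
  have c0 : (![w + 1, 0, w, 1] : Fin 4 → F) ≠ 0 := fun h => hw1' (congrFun h 0)
  have hBW : ∃ y ∈ W w, y ≠ 0 ∧ ∃ i, y i = 0 := ⟨_, d1, d0, 1, rfl⟩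
  have hBP : ∃ y ∈ perp (W w), y ≠ 0 ∧ ∃ i, y i = 0 := ⟨_, c1, c0, 1, rfl⟩
  refine ⟨W w, ⟨![w + 1, 0, w, 1], ![1, 0, 1, 1], (min_iff _ hA' hBP _).2 ⟨c1, c0, 1, rfl⟩,
    (min_iff _ hA hBW _).2 ⟨d1, d0, 1, rfl⟩, hw1', one_ne_zero, ?_⟩, ?_⟩
  · rw [meet_eq _ _ 1 1 rfl rfl (fun k hk h => c0 (hA' _ c1 1 k (Ne.symm hk) rfl h))
      (fun k hk h => d0 (hA _ d1 1 k (Ne.symm hk) rfl h))]
    simp
  · intro c d hc hd
    obtain ⟨c1, c0, i, hi⟩ := (min_iff _ hA' hBP _).1 hc
    obtain ⟨d1, d0, j, hj⟩ := (min_iff _ hA hBW _).1 hd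
    rw [meet_eq c d i j hi hj (fun k hk h => c0 (hA' _ c1 i k (Ne.symm hk) hi h))
      (fun k hk h => d0 (hA _ d1 j k (Ne.symm hk) hj h))]
    split_ifs <;> simp

end Pool.Agent.H89.CC.L.UF
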